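import Pool.Agent.H.MP_0ff5c6_co.D

namespace Pool.Agent.Results.MP_0ff5c6_co.Bounded

/-- orientation determinant of three points of the plane -/
def ori (a b c : ℝ × ℝ) : ℝ := (b.1 - a.1) * (c.2 - a.2) - (b.2 - a.2) * (c.1 - a.1)

/-- no three distinct points are collinear -/
def GenPos (S : Finset (ℝ × ℝ)) : Prop :=
  ∀ a ∈ S, ∀ b ∈ S, ∀ c ∈ S, a ≠ b → a ≠ c → b ≠ c → ori a b c ≠ 0

/-- `S` is in general position and has a stretched path `l`: an ordering of `S` that starts at a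
vertex of the convex hull, in which no two consecutive points are strictly on opposite sides of a
line through two later points -/
def Stretched (S : Finset (ℝ × ℝ)) : Prop :=
  GenPos S ∧ ∃ l : List (ℝ × ℝ), l.Nodup ∧ (∀ x, x ∈ l ↔ x ∈ S) ∧
    (∀ p ∈ l.head?, p ∉ convexHull ℝ ((S : Set (ℝ × ℝ)) \ {p})) ∧
    ∀ l1 a b l2, l = l1 ++ a :: b :: l2 →
      ∀ v ∈ l2, ∀ w ∈ l2, v ≠ w → ¬ ori v w a * ori v w b < 0

/-- a minimal non-stretched configuration -/
def Obstacle (S : Finset (ℝ × ℝ)) : Prop := ¬ Stretched S ∧ ∀ T, T ⊂ S → Stretched T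

theorem result : ∀ S : Finset (ℝ × ℝ), Obstacle S → S.card ≤ 481 := by
  rintro S ⟨h1, h2⟩
  obtain ⟨W, s, c, h⟩ := Pool.Agent.H.MP_0ff5c6_co.small (S := S) h1
  rcases s.eq_or_ssubset with rfl | k
  · exact c
  · exact (h (h2 W k)).elim

end Pool.Agent.Results.MP_0ff5c6_co.Bounded
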